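import Pool.Agent.J6H98.NC.Bus
import Pool.Agent.J6H81.NC.G2
import Pool.Agent.J6H38.DIR.Stm

/-!
# First-passage percolation: averages of Busemann functions with a rate (module BUSR of DIR)
-/

set_option autoImplicit false

open MeasureTheory ProbabilityTheory Filter Topology
open scoped ENNReal

namespace Pool.Agent.J6H2.DIR

open Pool.Agent.J6H99.NC
open Pool.Agent.J6H98.NC
open Pool.Agent.J6H38.DIR (BadP RateT DifuT BusRT)

variable {e : ℕ}

/-! ### Uniform concentration with a rate -/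

theorem uc0r (q : Par) (F : Measure ℝ) [IsProbabilityMeasure F] (hV : VarB e q F) {R δ : ℝ}
    (hR : 0 < R) (hδ : 0 < δ) :
    ∃ C' : ℝ, 0 ≤ C' ∧ ∀ m : ℕ, 1 ≤ m →
      PM e F {ω | ∃ z : V e, (n1 z : ℝ) ≤ R * m ∧ δ * m < |T q ω 0 z - g q F z|} ≤
        ENNReal.ofReal (C' / m) := by
  obtain ⟨C, hC0, hC⟩ := hV
  have hb := q.hb
  have he : (0 : ℝ) ≤ e := Nat.cast_nonneg e
  set d : ℝ := (e : ℝ) + 2 with hd
  have hd0 : 0 < d := by rw [hd]; linarith
  set θ : ℝ := δ / (12 * (d * q.b)) with hθ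
  have hθ0 : 0 < θ := by positivity
  set K : ℕ := ⌈R / θ⌉₊ with hK
  have hKR : R / θ ≤ K := Nat.le_ceil _
  set S : Finset (Fin (e + 2) → ℤ) := Fintype.piFinset fun _ => Finset.Icc (-(K : ℤ)) K with hS
  -- the constants
  set C1 : ℝ := C * (d * K * (θ + 1)) * (9 / δ ^ 2) with hC1
  have hC10 : 0 ≤ C1 := by positivity
  obtain ⟨m1, hm1⟩ := exists_nat_ge (12 * (d * q.b) / δ)
  refine ⟨S.card * C1 + m1, by positivity, fun m hmp => ?_⟩
  have hm3 : (1 : ℝ) ≤ m := by exact_mod_cast hmp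
  have hm0 : (0 : ℝ) < m := by linarith
  by_cases hm : m1 ≤ m
  swap
  · push Not at hm
    have h1 : (m : ℝ) ≤ m1 := by exact_mod_cast hm.le
    refine prob_le_one.trans ?_
    rw [← ENNReal.ofReal_one]
    refine ENNReal.ofReal_le_ofReal ?_
    rw [le_div_iff₀ hm0]
    have : 0 ≤ S.card * C1 := by positivity
    linarith
  have hm1' : (m1 : ℝ) ≤ m := by exact_mod_cast hm
  set r : ℕ := ⌊θ * m⌋₊ + 1 with hr
  have hr0 : (0 : ℤ) < r := by rw [hr]; positivity
  have hr1 : θ * m ≤ r := by rw [hr]; push_cast; exact (Nat.lt_floor_add_one _).le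
  have hr2 : (r : ℝ) ≤ θ * m + 1 := by
    rw [hr]; push_cast
    have := Nat.floor_le (show 0 ≤ θ * m by positivity)
    linarith
  have hr3 : (r : ℝ) ≤ (θ + 1) * m := by nlinarith
  have hr4 : d * q.b * r ≤ δ * m / 6 := by
    have h1 : d * q.b * (θ * m) = δ * m / 12 := by rw [hθ]; field_simp
    have h2 : d * q.b ≤ δ * m / 12 := by
      rw [div_le_iff₀ hδ] at hm1
      nlinarith
    calc d * q.b * r ≤ d * q.b * (θ * m + 1) := mul_le_mul_of_nonneg_left hr2 (by positivity)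
      _ = d * q.b * (θ * m) + d * q.b := by ring
      _ ≤ δ * m / 6 := by rw [h1]; linarith
  have hrK : R * m ≤ K * r := by
    have h1 : R ≤ K * θ := by rwa [div_le_iff₀ hθ0] at hKR
    calc R * m ≤ K * θ * m := mul_le_mul_of_nonneg_right h1 hm0.le
      _ = K * (θ * m) := by ring
      _ ≤ K * r := mul_le_mul_of_nonneg_left hr1 (Nat.cast_nonneg _)
  -- the mesh
  have hsub : {ω : Om e | ∃ z : V e, (n1 z : ℝ) ≤ R * m ∧ δ * m < |T q ω 0 z - g q F z|} ⊆
      ⋃ k ∈ S, {ω | δ * m / 3 ≤ |T q ω 0 (fun i => r * k i) - g q F (fun i => r * k i)|} := by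
    rintro ω ⟨z, hz1, hz2⟩
    set k : Fin (e + 2) → ℤ := fun i => z i / r with hk
    have hkS : k ∈ S := by
      rw [hS, Fintype.mem_piFinset]
      intro i
      rw [Finset.mem_Icc]
      have h1 : (|z i| : ℝ) ≤ K * r := by
        have : (|z i| : ℤ) ≤ n1 z := coord_le_n1 z i
        have : ((|z i| : ℤ) : ℝ) ≤ n1 z := by exact_mod_cast this
        push_cast at this
        linarith
      have h2 : |z i| ≤ (K : ℤ) * r := by exact_mod_cast h1
      rw [abs_le] at h2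
      constructor
      · rw [hk]
        simp only
        rw [Int.le_ediv_iff_mul_le hr0]
        linarith
      · rw [hk]
        simp only
        exact Int.ediv_le_of_le_mul hr0 (by linarith)
    refine Set.mem_iUnion₂.2 ⟨k, hkS, ?_⟩
    set w : V e := fun i => r * k i with hw
    show δ * m / 3 ≤ |T q ω 0 w - g q F w|
    have hzw : (n1 (z - w) : ℝ) ≤ d * r := by
      have h1 : n1 (z - w) ≤ ∑ _i : Fin (e + 2), (r : ℤ) := by
        unfold n1
        refine Finset.sum_le_sum fun i _ => ?_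
        simp only [Pi.sub_apply, hw, hk]
        have h2 := Int.emod_add_mul_ediv (z i) r
        have h3 := Int.emod_nonneg (z i) hr0.ne'
        have h4 := Int.emod_lt_of_pos (z i) hr0
        rw [abs_le]
        constructor <;> linarith
      have h5 : ((n1 (z - w) : ℤ) : ℝ) ≤ ((∑ _i : Fin (e + 2), (r : ℤ) : ℤ) : ℝ) := by
        exact_mod_cast h1
      refine h5.trans (le_of_eq ?_)
      simp [hd]
    have h1 := abs_T_sub q ω z w
    have h2 := abs_g_sub q F z w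
    have h3 : q.b * (n1 (z - w) : ℝ) ≤ δ * m / 6 := by
      refine le_trans (mul_le_mul_of_nonneg_left hzw hb.le) ?_
      linarith
    have h4 : |T q ω 0 z - g q F z| ≤ |T q ω 0 w - g q F w| + |T q ω 0 z - T q ω 0 w| +
        |g q F z - g q F w| := by
      have : T q ω 0 z - g q F z = (T q ω 0 w - g q F w) + (T q ω 0 z - T q ω 0 w) -
          (g q F z - g q F w) := by ring
      rw [this]
      exact (abs_sub _ _).trans (add_le_add (abs_add_le _ _) le_rfl)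
    have h5 : 0 < δ * m := mul_pos hδ hm0
    linarith
  refine (measure_mono hsub).trans ((measure_biUnion_finset_le _ _).trans ?_)
  have hterm : ∀ k ∈ S, PM e F {ω | δ * m / 3 ≤
      |T q ω 0 (fun i => r * k i) - g q F (fun i => r * k i)|} ≤ ENNReal.ofReal (C1 / m) := by
    intro k hk
    refine (cheb q F hC _ (by positivity)).trans (ENNReal.ofReal_le_ofReal ?_)
    have hw : (n1 (fun i => (r : ℤ) * k i : V e) : ℝ) ≤ d * (K * r) := by
      have h1 : n1 (fun i => (r : ℤ) * k i : V e) ≤ ∑ _i : Fin (e + 2), ((K : ℤ) * r) := by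
        unfold n1
        refine Finset.sum_le_sum fun i _ => ?_
        rw [hS, Fintype.mem_piFinset] at hk
        have h2 := Finset.mem_Icc.1 (hk i)
        show |(r : ℤ) * k i| ≤ _
        rw [abs_mul, abs_of_pos hr0, mul_comm]
        exact mul_le_mul_of_nonneg_right (abs_le.2 h2) hr0.le
      have h5 : ((n1 (fun i => (r : ℤ) * k i : V e) : ℤ) : ℝ) ≤
          ((∑ _i : Fin (e + 2), ((K : ℤ) * r) : ℤ) : ℝ) := by
        exact_mod_cast h1
      refine h5.trans (le_of_eq ?_)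
      simp [hd]
    rw [div_le_div_iff₀ (by positivity) hm0]
    calc C * (n1 (fun i => (r : ℤ) * k i : V e) : ℝ) * m ≤ C * (d * (K * ((θ + 1) * m))) * m := by
          refine mul_le_mul_of_nonneg_right (mul_le_mul_of_nonneg_left (hw.trans ?_) hC0) hm0.le
          exact mul_le_mul_of_nonneg_left (mul_le_mul_of_nonneg_left hr3 (Nat.cast_nonneg _)) hd0.le
      _ = C1 * (δ * m / 3) ^ 2 := by
          rw [hC1]; field_simp; ring
  refine (Finset.sum_le_sum hterm).trans ?_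
  rw [Finset.sum_const, nsmul_eq_mul, ← ENNReal.ofReal_natCast, ← ENNReal.ofReal_mul (by positivity)]
  refine ENNReal.ofReal_le_ofReal ?_
  rw [← mul_div_assoc]
  gcongr
  linarith [Nat.cast_nonneg (α := ℝ) m1]

theorem ucr (q : Par) (F : Measure ℝ) [IsProbabilityMeasure F] (hV : VarB e q F) {R δ : ℝ}
    (hR : 0 < R) (hδ : 0 < δ) :
    ∃ C' : ℝ, 0 ≤ C' ∧ ∀ m : ℕ, 1 ≤ m → ∀ p : V e,
      PM e F {ω | ∃ z : V e, (n1 (z - p) : ℝ) ≤ R * m ∧
        δ * m < |T q ω p z - g q F (z - p)|} ≤ ENNReal.ofReal (C' / m) := by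
  obtain ⟨C', hC', h0⟩ := uc0r q F hV hR hδ
  refine ⟨C', hC', fun m hm p => ?_⟩
  refine le_trans ?_ (h0 m hm)
  set s : Set (Om e) := {ω | ∃ z : V e, (n1 z : ℝ) ≤ R * m ∧ δ * m < |T q ω 0 z - g q F z|} with hs
  have h1 : {ω : Om e | ∃ z : V e, (n1 (z - p) : ℝ) ≤ R * m ∧
        δ * m < |T q ω p z - g q F (z - p)|} ⊆ act (tr p) ⁻¹' s := by
    rintro ω ⟨z, hz1, hz2⟩
    refine ⟨z - p, hz1, ?_⟩
    rw [T_tr]
    exact hz2
  refine (measure_mono h1).trans ?_
  have h2 := Measure.le_map_apply (μ := PM e F) (act_mp F (tr p)).measurable.aemeasurable s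
  rwa [(act_mp F (tr p)).map_eq] at h2

/-! ### The theorem -/

theorem busr : BusRT := by
  intro hRate hDifu e q F _ hV hFar c y hcy hS hDif η hη
  have hc : HN c := hn_of hcy
  have hlb := hS.1
  have he : (0 : ℝ) ≤ e := Nat.cast_nonneg e
  set δ : ℝ := η / 5 with hδ
  have hδ0 : 0 < δ := by positivity
  obtain ⟨θ, Cr, hθ0, hθ1, hCr, hrate⟩ := hRate e q F hV hFar c y hcy hS
  obtain ⟨Λ, hΛ, κ, hκ, m1, hm1⟩ := hDifu e q F hFar c hlb hDif δ hδ0
  obtain ⟨cg, hcg, Ng, hgl⟩ := Pool.Agent.J6H81.NC.g_lower (q := q) (F := F) hFar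
  have hΛ1 : (1 : ℝ) ≤ Λ := by exact_mod_cast hΛ
  have hΛ0 : (0 : ℝ) < Λ := by linarith
  set Cx : ℝ := Cr * (Λ : ℝ) ^ (1 - θ) with hCx
  have hCx0 : 0 ≤ Cx := by positivity
  set R : ℝ := 1 + (Ng + (Λ + Cx) / cg) with hR
  have hR0 : 0 < R := by positivity
  obtain ⟨C2, hC2, hm2⟩ := ucr q F hV (R := 1) one_pos hδ0
  obtain ⟨C3, hC3, hm3⟩ := ucr q F hV hR0 hδ0
  -- the threshold for `κ m ≥ Cx m^(1-θ)`
  obtain ⟨m4, hm4⟩ : ∃ m4 : ℕ, ∀ m : ℕ, m4 ≤ m → Cx * (m : ℝ) ^ (1 - θ) ≤ κ * m := by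
    have h1 : Tendsto (fun m : ℕ => (m : ℝ) ^ θ) atTop atTop :=
      (tendsto_rpow_atTop hθ0).comp tendsto_natCast_atTop_atTop
    obtain ⟨m4, h4⟩ := eventually_atTop.1 ((h1.eventually_ge_atTop (Cx / κ)).and
      (eventually_ge_atTop 1))
    refine ⟨m4, fun m hm => ?_⟩
    obtain ⟨h5, h6⟩ := h4 m hm
    have hm0 : (0 : ℝ) < m := by exact_mod_cast h6
    rw [div_le_iff₀ hκ] at h5
    have h7 : (m : ℝ) = (m : ℝ) ^ θ * (m : ℝ) ^ (1 - θ) := by
      rw [← Real.rpow_add hm0]; simp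
    calc Cx * (m : ℝ) ^ (1 - θ) ≤ ((m : ℝ) ^ θ * κ) * (m : ℝ) ^ (1 - θ) := by gcongr
      _ = κ * ((m : ℝ) ^ θ * (m : ℝ) ^ (1 - θ)) := by ring
      _ = κ * m := by rw [← h7]
  set M0 : ℕ := max m1 m4 with hM0
  set Cf : ℝ := C2 + C3 + (Cx + 2) / δ + 1 with hCf
  have hCf0 : 0 ≤ Cf := by positivity
  refine ⟨θ, Cf + (M0 : ℝ) ^ θ, hθ0, by positivity, fun m hm => ?_⟩
  have hm1r : (1 : ℝ) ≤ m := by exact_mod_cast hm
  have hm0 : (0 : ℝ) < m := by linarith
  have hmθ : 0 < (m : ℝ) ^ (-θ) := Real.rpow_pos_of_pos hm0 _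
  by_cases hmM : M0 ≤ m
  swap
  · -- small `m`
    push Not at hmM
    refine ⟨0, fun N _ => ?_⟩
    have h1 : ∑ t ∈ Finset.range N, PM e F (BadP q F c η m t) ≤ N := by
      refine (Finset.sum_le_sum fun t _ => prob_le_one).trans ?_
      simp
    refine h1.trans ?_
    rw [← ENNReal.ofReal_natCast]
    refine ENNReal.ofReal_le_ofReal ?_
    have h2 : (1 : ℝ) ≤ (M0 : ℝ) ^ θ * (m : ℝ) ^ (-θ) := by
      rw [Real.rpow_neg hm0.le, ← div_eq_mul_inv, one_le_div (by positivity)]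
      have : (m : ℝ) ≤ M0 := by exact_mod_cast hmM.le
      gcongr
    have h3 : (1 : ℝ) ≤ (Cf + (M0 : ℝ) ^ θ) * (m : ℝ) ^ (-θ) := by
      rw [add_mul]
      have : 0 ≤ Cf * (m : ℝ) ^ (-θ) := by positivity
      linarith
    have hN0 : (0 : ℝ) ≤ N := Nat.cast_nonneg N
    nlinarith
  have hmm1 : m1 ≤ m := (le_max_left _ _).trans hmM
  have hmm4 : m4 ≤ m := (le_max_right _ _).trans hmM
  have hΛm : 1 ≤ Λ * m := Nat.one_le_iff_ne_zero.2 (by positivity)
  obtain ⟨x, hx1, hx2⟩ := hrate (Λ * m) hΛm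
  push_cast at hx1 hx2
  have hx3 : g q F x ≤ Λ * m + Cx * (m : ℝ) ^ (1 - θ) := by
    refine hx2.trans (le_of_eq ?_)
    rw [Real.mul_rpow hΛ0.le hm0.le, hCx]
    ring
  have hg1 : ∀ z : V e, n1 z ≤ m → g q F (x + z) ≤ lf c (x + z) + δ * m :=
    hm1 m hmm1 x hx1 (hx3.trans (by linarith [hm4 m hmm4]))
  have hpow1 : (m : ℝ) ^ (1 - θ) ≤ m := by
    calc (m : ℝ) ^ (1 - θ) ≤ (m : ℝ) ^ (1 : ℝ) :=
          Real.rpow_le_rpow_of_exponent_le hm1r (by linarith)
      _ = m := Real.rpow_one _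
  have hn1x : (n1 x : ℝ) ≤ (Ng + (Λ + Cx) / cg) * m := by
    by_cases hxN : (Ng : ℤ) ≤ n1 x
    · have h1 := hgl x hxN
      have h2 : cg * n1 x ≤ (Λ + Cx) * m := by
        have : Cx * (m : ℝ) ^ (1 - θ) ≤ Cx * m := by gcongr
        linarith
      have h3 : (n1 x : ℝ) ≤ (Λ + Cx) * m / cg := by
        rw [le_div_iff₀ hcg]; linarith
      have h4 : (0 : ℝ) ≤ Ng * m := by positivity
      have h5 : (Λ + Cx) * m / cg = (Λ + Cx) / cg * m := by ring
      rw [add_mul]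
      linarith
    · push Not at hxN
      have h1 : (n1 x : ℝ) ≤ Ng := by exact_mod_cast hxN.le
      have h2 : (Ng : ℝ) ≤ Ng * m := le_mul_of_one_le_right (Nat.cast_nonneg _) hm1r
      have h3 : 0 ≤ (Λ + Cx) / cg * m := by positivity
      rw [add_mul]
      linarith
  -- the events
  set E1 : Set (Om e) := {ω | ∃ z : V e, (n1 (z - 0) : ℝ) ≤ 1 * m ∧
    δ * m < |T q ω 0 z - g q F (z - 0)|} with hE1
  set E2 : Set (Om e) := {ω | ∃ z : V e, (n1 (z - (-x)) : ℝ) ≤ R * m ∧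
    δ * m < |T q ω (-x) z - g q F (z - (-x))|} with hE2
  have hP1 : PM e F E1 ≤ ENNReal.ofReal (C2 / m) := hm2 m hm 0
  have hP2 : PM e F E2 ≤ ENNReal.ofReal (C3 / m) := hm3 m hm (-x)
  set Y : ℝ → Om e → ℝ := fun t ω => T q ω (-x) 0 - TH q ω c (-x) t + TH q ω c 0 t with hY
  have hY0 : ∀ t ω, 0 ≤ Y t ω := fun t ω => by
    have := TH_tri hc q ω (-x) 0 t
    simp only [hY]
    linarith
  have hYi : ∀ t, Integrable (Y t) (PM e F) := fun t =>
    ((integrable_T q F (-x) 0).sub (integrable_TH hc q F (-x) t)).add (integrable_TH hc q F 0 t)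
  have hYint : ∀ t, ∫ ω, Y t ω ∂(PM e F) =
      g q F x - (hh q F c (t + lf c x) - hh q F c t) := by
    intro t
    simp only [hY]
    rw [integral_add (f := fun ω => T q ω (-x) 0 - TH q ω c (-x) t)
      ((integrable_T q F (-x) 0).sub (integrable_TH hc q F (-x) t))
      (integrable_TH hc q F 0 t), integral_sub (integrable_T q F (-x) 0)
      (integrable_TH hc q F (-x) t), int_T, int_TH hc, int_TH hc, lf_zero,
      Pool.Agent.J6H81.NC.lf_neg]
    simp only [zero_add, sub_neg_eq_add, sub_zero]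
    ring
  -- the inclusion
  have hsub : ∀ t : ℝ, BadP q F c η m t ⊆ E1 ∪ (E2 ∪ {ω | δ * m ≤ Y t ω}) := by
    intro t ω hω
    obtain ⟨z, hz1, hz2, hz3⟩ := hω
    by_contra hne
    rw [Set.mem_union, Set.mem_union, not_or, not_or] at hne
    obtain ⟨h1, h2, h3⟩ := hne
    have h3' : Y t ω < δ * m := not_le.1 h3
    have hz1' : (n1 z : ℝ) ≤ m := by exact_mod_cast hz1
    have h4 : |T q ω 0 z - g q F z| ≤ δ * m := by
      by_contra h4
      push Not at h4
      exact h1 ⟨z, by rw [sub_zero, one_mul]; exact hz1', by rw [sub_zero]; exact h4⟩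
    have h5 : ∀ z' : V e, (n1 z' : ℝ) ≤ m → |T q ω (-x) z' - g q F (z' + x)| ≤ δ * m := by
      intro z' hz'
      by_contra h5
      push Not at h5
      refine h2 ⟨z', ?_, by rw [sub_neg_eq_add]; exact h5⟩
      rw [sub_neg_eq_add]
      have h6 : (n1 (z' + x) : ℝ) ≤ n1 z' + n1 x := by exact_mod_cast n1_add_le z' x
      rw [hR, add_mul, one_mul]
      linarith
    have h6 := (abs_le.1 (h5 z hz1')).2
    have h7 := (abs_le.1 (h5 0 (by simp))).1
    rw [zero_add] at h7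
    have h8 := (abs_le.1 h4).1
    have h9 := TH_tri hc q ω (-x) z t
    have h10 := hg1 z (by exact_mod_cast hz1)
    have h11 := hlb x
    rw [add_comm z x] at h6
    rw [lf_add] at h10
    simp only [hY] at h3'
    have h13 : η * m = 5 * (δ * m) := by rw [hδ]; ring
    linarith
  have hpt : ∀ t : ℝ, PM e F (BadP q F c η m t) ≤
      ENNReal.ofReal ((C2 + C3) / m + (∫ ω, Y t ω ∂(PM e F)) / (δ * m)) := by
    intro t
    have hint0 : 0 ≤ ∫ ω, Y t ω ∂(PM e F) := integral_nonneg fun ω => hY0 t ω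
    have hmk : PM e F {ω | δ * m ≤ Y t ω} ≤
        ENNReal.ofReal ((∫ ω, Y t ω ∂(PM e F)) / (δ * m)) := by
      have h1 := mul_meas_ge_le_integral_of_nonneg (Eventually.of_forall fun ω => hY0 t ω)
        (hYi t) (δ * m)
      rw [← ofReal_measureReal]
      refine ENNReal.ofReal_le_ofReal ?_
      rw [le_div_iff₀ (by positivity), mul_comm]
      exact h1
    refine (measure_mono (hsub t)).trans ((measure_union_le _ _).trans ?_)
    refine (add_le_add hP1 ((measure_union_le _ _).trans (add_le_add hP2 hmk))).trans ?_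
    rw [← ENNReal.ofReal_add (by positivity) (by positivity),
      ← ENNReal.ofReal_add (by positivity) (by positivity)]
    refine ENNReal.ofReal_le_ofReal (le_of_eq ?_)
    ring
  -- the average
  set A : ℝ := lf c x with hA
  have hA0 : 0 ≤ A := by
    have : (0 : ℝ) ≤ Λ * m := by positivity
    linarith
  set a : ℕ := ⌊A⌋₊ with ha
  have haA : A - 1 ≤ a := by
    have := Nat.lt_floor_add_one A
    rw [ha]; linarith
  obtain ⟨N1, hN1⟩ := hh_lower hc q F hV hFar hlb (δ := 1 / (2 * ((a : ℝ) + 1))) (by positivity) (by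
    rw [div_le_one (by positivity)]
    linarith [Nat.cast_nonneg (α := ℝ) a])
  obtain ⟨N2, hN2⟩ := exists_nat_ge (2 * (a * hh q F c a))
  refine ⟨max N1 N2, fun N hN => ?_⟩
  have hNN1 : N1 ≤ N := (le_max_left _ _).trans hN
  have hNN2 : (N2 : ℝ) ≤ N := by exact_mod_cast (le_max_right _ _).trans hN
  have hN0 : (0 : ℝ) ≤ N := Nat.cast_nonneg N
  have hsum : (A - 2) * N ≤
      ∑ t ∈ Finset.range N, (hh q F c ((t : ℝ) + A) - hh q F c t) := by
    have haA2 : (a : ℝ) ≤ A := Nat.floor_le hA0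
    have h1 := sum_shift (hh q F c) (fun s t h => hh_mono hc q F h) a N
    have h2 : ∑ t ∈ Finset.range N, (hh q F c ((t : ℝ) + a) - hh q F c t) ≤
        ∑ t ∈ Finset.range N, (hh q F c ((t : ℝ) + A) - hh q F c t) :=
      Finset.sum_le_sum fun t _ => sub_le_sub_right (hh_mono hc q F (by linarith)) _
    have h3 := hN1 N hNN1
    have ha0 : (0 : ℝ) ≤ a := Nat.cast_nonneg a
    have h4 := mul_le_mul_of_nonneg_left h3 ha0
    have h5 : (a : ℝ) * ((1 - 1 / (2 * ((a : ℝ) + 1))) * N) ≥ (a - 1 / 2) * N := by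
      have h6 : (a : ℝ) * (1 / (2 * ((a : ℝ) + 1))) ≤ 1 / 2 := by
        rw [← mul_div_assoc, mul_one, div_le_div_iff₀ (by positivity) (by positivity)]
        linarith
      nlinarith
    have h6 : (A - 1) * N ≤ a * N := mul_le_mul_of_nonneg_right haA hN0
    linarith
  have hpowm : (1 : ℝ) / m ≤ (m : ℝ) ^ (-θ) := by
    rw [one_div, ← Real.rpow_neg_one]
    exact Real.rpow_le_rpow_of_exponent_le hm1r (by linarith)
  have hpow2 : (m : ℝ) ^ (1 - θ) / m = (m : ℝ) ^ (-θ) := by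
    rw [Real.rpow_sub hm0, Real.rpow_one, Real.rpow_neg hm0.le]
    field_simp
  have hfin : ∑ t ∈ Finset.range N, ((C2 + C3) / m + (∫ ω, Y t ω ∂(PM e F)) / (δ * m)) ≤
      (Cf + (M0 : ℝ) ^ θ) * (m : ℝ) ^ (-θ) * N := by
    rw [Finset.sum_add_distrib, Finset.sum_const, Finset.card_range, nsmul_eq_mul,
      ← Finset.sum_div]
    have h1 : ∑ t ∈ Finset.range N, ∫ ω, Y t ω ∂(PM e F) ≤
        (Cx * (m : ℝ) ^ (1 - θ) + 2) * N := by
      simp_rw [hYint]
      rw [Finset.sum_sub_distrib, Finset.sum_const, Finset.card_range, nsmul_eq_mul]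
      have h2 := mul_le_mul_of_nonneg_right (hx3.trans
        (show Λ * m + Cx * (m : ℝ) ^ (1 - θ) ≤ A + Cx * (m : ℝ) ^ (1 - θ) by linarith)) hN0
      linarith
    have h2 : (Cx * (m : ℝ) ^ (1 - θ) + 2) * N / (δ * m) ≤
        ((Cx + 2) / δ) * (m : ℝ) ^ (-θ) * N := by
      have e1 : (Cx * (m : ℝ) ^ (1 - θ) + 2) * N / (δ * m) =
          (Cx * ((m : ℝ) ^ (1 - θ) / m) + 2 * (1 / m)) / δ * N := by
        field_simp
      rw [e1, hpow2]
      have h3 : (Cx * (m : ℝ) ^ (-θ) + 2 * (1 / m)) / δ ≤ (Cx + 2) / δ * (m : ℝ) ^ (-θ) := by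
        rw [div_mul_eq_mul_div]
        gcongr
        linarith
      gcongr
    have h3 : (∑ t ∈ Finset.range N, ∫ ω, Y t ω ∂(PM e F)) / (δ * m) ≤
        (Cx * (m : ℝ) ^ (1 - θ) + 2) * N / (δ * m) := div_le_div_of_nonneg_right h1 (by positivity)
    have h4 : N * ((C2 + C3) / m) ≤ (C2 + C3) * (m : ℝ) ^ (-θ) * N := by
      have e1 : N * ((C2 + C3) / m) = (C2 + C3) * (1 / m) * N := by ring
      rw [e1]
      gcongr
    have h5 : 0 ≤ (1 + (M0 : ℝ) ^ θ) * (m : ℝ) ^ (-θ) * N := by positivity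
    have h6 : (Cf + (M0 : ℝ) ^ θ) * (m : ℝ) ^ (-θ) * N = (C2 + C3) * (m : ℝ) ^ (-θ) * N +
        ((Cx + 2) / δ) * (m : ℝ) ^ (-θ) * N + (1 + (M0 : ℝ) ^ θ) * (m : ℝ) ^ (-θ) * N := by
      rw [hCf]; ring
    rw [h6]
    linarith
  calc ∑ t ∈ Finset.range N, PM e F (BadP q F c η m t)
      ≤ ∑ t ∈ Finset.range N,
          ENNReal.ofReal ((C2 + C3) / m + (∫ ω, Y t ω ∂(PM e F)) / (δ * m)) :=
        Finset.sum_le_sum fun t _ => hpt t
    _ = ENNReal.ofReal (∑ t ∈ Finset.range N,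
          ((C2 + C3) / m + (∫ ω, Y t ω ∂(PM e F)) / (δ * m))) := by
        rw [ENNReal.ofReal_sum_of_nonneg]
        intro t _
        have : 0 ≤ ∫ ω, Y t ω ∂(PM e F) := integral_nonneg fun ω => hY0 t ω
        positivity
    _ ≤ ENNReal.ofReal ((Cf + (M0 : ℝ) ^ θ) * (m : ℝ) ^ (-θ) * N) := ENNReal.ofReal_le_ofReal hfin

end Pool.Agent.J6H2.DIR
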